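import Pool.Agent.K3h47.TX.Sect

/-! The monomials in a class: the facts used in the induction step. -/

set_option autoImplicit false
set_option linter.unusedSectionVars false

namespace Pool.Agent.K3h47.TX

variable {n r : ℕ} {R : AddSubgroup (ℤ × (Fin r → ℤ))} {δ e : Fin r → ℕ}

/-- the facts about the monomials in the `z` which occur in the sections of a class -/
structure Facts0 (R : AddSubgroup (ℤ × (Fin r → ℤ))) (e : Fin r → ℕ) (n : ℕ)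
    (c : ℤ × (Fin r → ℤ)) : Prop where
  f0 : ∀ I : Finset (Fin r), I.card ≤ n → ∃ (L : ℤ) (a : Fin r → ℕ), 0 ≤ L ∧ (∀ i ∈ I, a i = 0) ∧
      (∀ i, a i ≤ e i - 1) ∧
      ((c.1 - L, fun i => c.2 i - (a i : ℤ)) : ℤ × (Fin r → ℤ)) ∈ R

/-- the facts used for very ampleness -/
structure Facts1 (R : AddSubgroup (ℤ × (Fin r → ℤ))) (e : Fin r → ℕ) (n : ℕ)
    (c : ℤ × (Fin r → ℤ)) : Prop where
  f1 : ∀ I : Finset (Fin r), I.card ≤ n → ∃ (L : ℤ) (a : Fin r → ℕ), 1 ≤ L ∧ (∀ i ∈ I, a i = 0) ∧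
      (∀ i, a i ≤ e i - 1) ∧
      ((c.1 - L, fun i => c.2 i - (a i : ℤ)) : ℤ × (Fin r → ℤ)) ∈ R
  f2 : ∀ I : Finset (Fin r), I.card ≤ n → ∀ i₀ ∈ I, ∃ (L : ℤ) (a : Fin r → ℕ), 0 ≤ L ∧
      a i₀ = 1 ∧ (∀ i ∈ I, i ≠ i₀ → a i = 0) ∧ (∀ i, a i ≤ e i - 1) ∧
      ((c.1 - L, fun i => c.2 i - (a i : ℤ)) : ℤ × (Fin r → ℤ)) ∈ R
  f3 : ∀ I : Finset (Fin r), I.card ≤ n → ∀ Γ : AddSubgroup (∀ i, ZMod (e i)),
      (∀ y y', FU.Good R e c I y → FU.Good R e c I y' → y - y' ∈ Γ) →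
        ∀ w ∈ FU.van (FU.Lam R e) I 0, w ∈ Γ

theorem aOf_le (y : ∀ i, ZMod (e i)) (i : Fin r) : FU.aOf y i ≤ e i - 1 := by
  rw [FU.aOf]
  omega

theorem E12b (h : FU.Dat R δ e n) {M : ℕ} (hM : M ≠ 0) (hd : ∀ j, e j ∣ M * δ j)
    (hF : ∀ p : ℕ, p.Prime → p ∣ M →
      n + 1 ≤ (Finset.univ.filter (fun j => p ^ M.factorization p ∣ e j)).card)
    (c : ℤ × (Fin r → ℤ)) (I : Finset (Fin r)) (hI : I.card ≤ n) (b : Fin r → ℕ)
    (hb : ∀ i ∈ I, b i ≤ e i - 1) :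
    ∃ (L : ℤ) (a : Fin r → ℕ), (∀ i ∈ I, a i = b i) ∧ (∀ i, a i ≤ e i - 1) ∧
      ((c.1 - L, fun i => c.2 i - (a i : ℤ)) : ℤ × (Fin r → ℤ)) ∈ R ∧
      M * FU.bet δ e c + ∑ i ∈ I, (((e i - 1 - b i : ℕ) : ℚ) * FU.wt e M i)
        + (∑ i ∈ I, ((FU.wt e M i : ℚ) - 1) + ((n : ℚ) - I.card) * (M - 1)) ≤ M * L := by
  classical
  have hne := h.neZero
  obtain ⟨l, hnd, hlI, hlu, htot⟩ := FU.exists_list M hM (FU.Lam R e) n h.sur hF I hI
  obtain ⟨z, hz1, hz2⟩ := h.exists_pre (FU.x0 e c) I hI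
    (fun i => ((e i - 1 - b i : ℕ) : ZMod (e i)))
  obtain ⟨y, hy1, hy2, hy3⟩ := FU.exists_topOn (M := M) (FU.Lam R e) l I z
  have hyx : y - FU.x0 e c ∈ FU.Lam R e := by
    have : y - FU.x0 e c = (y - z) + (z - FU.x0 e c) := by abel
    rw [this]
    exact (FU.Lam R e).add_mem hy1 hz1
  obtain ⟨L, hL1, hL2⟩ := h.exists_L c y hyx
  have hval : ∀ i ∈ I, (y i).val = e i - 1 - b i := by
    intro i hi
    rw [hy2 i hi, hz2 i hi]
    exact FU.val_cast _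
  refine ⟨L, FU.aOf y, ?_, aOf_le y, hL1, ?_⟩
  · intro i hi
    rw [FU.aOf, hval i hi]
    have := hb i hi
    omega
  · have h1 := h.L_ge hM hd y I l hnd hlI
    have h2 := FU.TopOn.sum l I hy3
    have h3 : ∑ i ∈ I, ((y i).val : ℚ) * FU.wt e M i
        = ∑ i ∈ I, (((e i - 1 - b i : ℕ) : ℚ) * FU.wt e M i) :=
      Finset.sum_congr rfl fun i hi => by rw [hval i hi]
    rw [h3] at h1
    rw [hL2, mul_add]
    linarith

section
variable (h : FU.Dat R δ e n) {M : ℕ} (hM : M ≠ 0) (hd : ∀ j, e j ∣ M * δ j)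
    (hF : ∀ p : ℕ, p.Prime → p ∣ M →
      n + 1 ≤ (Finset.univ.filter (fun j => p ^ M.factorization p ∣ e j)).card)
    (c : ℤ × (Fin r → ℤ))
include h hM hd hF

theorem sum_ge (I : Finset (Fin r)) :
    (I.card : ℚ) * ((M : ℚ) - 1) ≤ ∑ i ∈ I, (((e i - 1 - 0 : ℕ) : ℚ) * FU.wt e M i)
      + ∑ i ∈ I, ((FU.wt e M i : ℚ) - 1) := by
  rw [← Finset.sum_add_distrib]
  have h5 : (I.card : ℚ) * ((M : ℚ) - 1) = ∑ i ∈ I, ((M : ℚ) - 1) := by
    rw [Finset.sum_const, nsmul_eq_mul]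
  rw [h5]
  refine Finset.sum_le_sum fun i _ => ?_
  simpa using FU.wt_sum_ge h i

/-- a monomial with a coefficient of degree at least `k` -/
theorem E01b (k : ℤ) (hk : 0 ≤ k) (hβ : -(n : ℚ) * M + n + k ≤ M * FU.bet δ e c)
    (I : Finset (Fin r)) (hI : I.card ≤ n) (hk1 : k ≤ 1) :
    ∃ (L : ℤ) (a : Fin r → ℕ), k ≤ L ∧ (∀ i ∈ I, a i = 0) ∧ (∀ i, a i ≤ e i - 1) ∧
      ((c.1 - L, fun i => c.2 i - (a i : ℤ)) : ℤ × (Fin r → ℤ)) ∈ R := by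
  obtain ⟨L, a, h1, hb, h2, h3⟩ := E12b h hM hd hF c I hI (fun _ => 0) (fun i _ => Nat.zero_le _)
  refine ⟨L, a, ?_, h1, hb, h2⟩
  have h4 := sum_ge h hM hd hF I
  have hMpos : (0 : ℚ) < M := by exact_mod_cast Nat.pos_of_ne_zero hM
  have h6 : (k : ℚ) ≤ M * L := by nlinarith
  have hkq : (0 : ℚ) ≤ k := by exact_mod_cast hk
  by_contra hcon
  push Not at hcon
  have h7 : L ≤ 0 := by omega
  rcases eq_or_lt_of_le h7 with h8 | h8
  · rw [h8, Int.cast_zero, mul_zero] at h6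
    have h9 : k ≤ 0 := by exact_mod_cast h6
    omega
  · have h9 : (L : ℚ) ≤ -1 := by exact_mod_cast (show L ≤ -1 by omega)
    nlinarith

/-- A monomial vanishing at exactly one of the divisors `D_i`, `i ∈ I`, to the first order. -/
theorem E2b (hβ : -(n : ℚ) * M + n + 1 ≤ M * FU.bet δ e c)
    (I : Finset (Fin r)) (hI : I.card ≤ n) (i₀ : Fin r) (hi₀ : i₀ ∈ I) :
    ∃ (L : ℤ) (a : Fin r → ℕ), 0 ≤ L ∧ a i₀ = 1 ∧ (∀ i ∈ I, i ≠ i₀ → a i = 0) ∧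
      (∀ i, a i ≤ e i - 1) ∧
      ((c.1 - L, fun i => c.2 i - (a i : ℤ)) : ℤ × (Fin r → ℤ)) ∈ R := by
  classical
  obtain ⟨L, a, h1, hb, h2, h3⟩ := E12b h hM hd hF c I hI (fun i => if i = i₀ then 1 else 0)
    (fun i _ => by
      have := h.two i
      split_ifs <;> omega)
  refine ⟨L, a, ?_, by rw [h1 i₀ hi₀, if_pos rfl], fun i hi hne => by rw [h1 i hi, if_neg hne],
    hb, h2⟩
  have hMpos : (0 : ℚ) < M := by exact_mod_cast Nat.pos_of_ne_zero hM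
  have h4 : ((I.card : ℚ) - 1) * ((M : ℚ) - 1) ≤
      ∑ i ∈ I, (((e i - 1 - (if i = i₀ then 1 else 0) : ℕ) : ℚ) * FU.wt e M i)
        + ∑ i ∈ I, ((FU.wt e M i : ℚ) - 1) := by
    rw [← Finset.sum_add_distrib, ← Finset.add_sum_erase _ _ hi₀]
    have h5 : ((I.card : ℚ) - 1) * ((M : ℚ) - 1) = ∑ i ∈ I.erase i₀, ((M : ℚ) - 1) := by
      rw [Finset.sum_const, nsmul_eq_mul, Finset.card_erase_of_mem hi₀,
        Nat.cast_sub (Finset.card_pos.2 ⟨i₀, hi₀⟩)]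
      norm_num
    rw [h5]
    have h6 : (0 : ℚ) ≤ ((e i₀ - 1 - (if i₀ = i₀ then 1 else 0) : ℕ) : ℚ) * FU.wt e M i₀
        + ((FU.wt e M i₀ : ℚ) - 1) := by
      have h7 := FU.wt_ge_one h hM i₀
      have h8 : (0 : ℚ) ≤ ((e i₀ - 1 - (if i₀ = i₀ then 1 else 0) : ℕ) : ℚ) * FU.wt e M i₀ := by
        positivity
      linarith
    have h7 : ∑ i ∈ I.erase i₀, ((M : ℚ) - 1) ≤ ∑ i ∈ I.erase i₀,
        (((e i - 1 - (if i = i₀ then 1 else 0) : ℕ) : ℚ) * FU.wt e M i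
          + ((FU.wt e M i : ℚ) - 1)) := by
      refine Finset.sum_le_sum fun i hi => ?_
      rw [if_neg (Finset.ne_of_mem_erase hi)]
      simpa using FU.wt_sum_ge h i
    linarith
  have h6 : (2 : ℚ) - M ≤ M * L := by nlinarith
  have h7 : (-1 : ℚ) < L := by
    by_contra hcon
    push Not at hcon
    nlinarith
  have h8 : (-1 : ℤ) < L := by exact_mod_cast h7
  omega

theorem facts0_gen (hβ : -(n : ℚ) * M + n ≤ M * FU.bet δ e c) : Facts0 R e n c :=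
  ⟨fun I hI => E01b h hM hd hF c 0 le_rfl (by push_cast; linarith) I hI (by norm_num)⟩

theorem facts1_gen (hβ : -(n : ℚ) * M + n + 1 ≤ M * FU.bet δ e c) : Facts1 R e n c :=
  ⟨fun I hI => E01b h hM hd hF c 1 (by norm_num) (by push_cast; linarith) I hI le_rfl,
    fun I hI i₀ hi₀ => E2b h hM hd hF c hβ I hI i₀ hi₀,
    fun I hI Γ hΓ => h.E3 hM hd hF c hβ I hI Γ hΓ⟩

end

section
variable (h : FU.Dat R δ e n) (hd : ∀ j, e j ∣ δ j)
include h hd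

theorem one_le_w (i : Fin r) : (1 : ℚ) ≤ (δ i / e i : ℚ) := by
  have h1 := h.two i
  have h2 : (0 : ℚ) < e i := by exact_mod_cast (show 0 < e i by omega)
  rw [le_div_iff₀ h2, one_mul]
  exact_mod_cast Nat.le_of_dvd (h.δpos i) (hd i)

/-- monomials with prescribed exponents -/
theorem pre (c : ℤ × (Fin r → ℤ)) (I : Finset (Fin r)) (hI : I.card ≤ n) (b : Fin r → ℕ)
    (hb : ∀ i ∈ I, b i ≤ e i - 1) :
    ∃ (y : ∀ i, ZMod (e i)) (L : ℤ), y - FU.x0 e c ∈ FU.Lam R e ∧ (∀ i ∈ I, FU.aOf y i = b i) ∧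
      ((c.1 - L, fun i => c.2 i - (FU.aOf y i : ℤ)) : ℤ × (Fin r → ℤ)) ∈ R ∧
      FU.bet δ e c + ∑ i ∈ I, ((e i - 1 - b i : ℕ) : ℚ) ≤ L := by
  have hne := h.neZero
  obtain ⟨y, hy1, hy2⟩ := h.exists_pre (FU.x0 e c) I hI
    (fun i => ((e i - 1 - b i : ℕ) : ZMod (e i)))
  obtain ⟨L, hL1, hL2⟩ := h.exists_L c y hy1
  have hval : ∀ i ∈ I, (y i).val = e i - 1 - b i := by
    intro i hi
    rw [hy2 i hi]
    exact FU.val_cast _
  refine ⟨y, L, hy1, fun i hi => ?_, hL1, ?_⟩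
  · rw [FU.aOf, hval i hi]
    have := hb i hi
    omega
  · rw [hL2]
    have h1 : ∑ i ∈ I, ((e i - 1 - b i : ℕ) : ℚ) ≤ ∑ i ∈ I, ((y i).val : ℚ) * (δ i / e i) := by
      refine Finset.sum_le_sum fun i hi => ?_
      rw [hval i hi]
      have h2 := one_le_w h hd i
      have h3 : (0 : ℚ) ≤ ((e i - 1 - b i : ℕ) : ℚ) := Nat.cast_nonneg _
      nlinarith
    have h2 : ∑ i ∈ I, ((y i).val : ℚ) * (δ i / e i) ≤ ∑ i, ((y i).val : ℚ) * (δ i / e i) :=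
      Finset.sum_le_sum_of_subset_of_nonneg (Finset.subset_univ I)
        (fun i _ _ => by positivity)
    linarith

theorem nonempty_le (hn : 1 ≤ n) (hr : 0 < r) (I : Finset (Fin r)) (hI : I.card ≤ n) :
    ∃ J : Finset (Fin r), I ⊆ J ∧ J.card ≤ n ∧ J.Nonempty := by
  by_cases h1 : I.Nonempty
  · exact ⟨I, Finset.Subset.refl _, hI, h1⟩
  · rw [Finset.not_nonempty_iff_eq_empty] at h1
    refine ⟨{⟨0, hr⟩}, by rw [h1]; exact Finset.empty_subset _, ?_, Finset.singleton_nonempty _⟩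
    rw [Finset.card_singleton]
    exact hn

theorem zero_mon (hn : 1 ≤ n) (hr : 0 < r) (c : ℤ × (Fin r → ℤ)) (k : ℤ)
    (hβ : (k : ℚ) - 1 ≤ FU.bet δ e c) (I : Finset (Fin r)) (hI : I.card ≤ n) :
    ∃ (L : ℤ) (a : Fin r → ℕ), k ≤ L ∧ (∀ i ∈ I, a i = 0) ∧ (∀ i, a i ≤ e i - 1) ∧
      ((c.1 - L, fun i => c.2 i - (a i : ℤ)) : ℤ × (Fin r → ℤ)) ∈ R := by
  obtain ⟨J, h1, h2, i₀, hi₀⟩ := nonempty_le h hd hn hr I hI
  obtain ⟨y, L, _, h3, h4, h5⟩ := pre h hd c J h2 (fun _ => 0) (fun _ _ => Nat.zero_le _)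
  refine ⟨L, FU.aOf y, ?_, fun i hi => h3 i (h1 hi), aOf_le y, h4⟩
  have h6 : ((e i₀ - 1 - 0 : ℕ) : ℚ) ≤ ∑ i ∈ J, ((e i - 1 - 0 : ℕ) : ℚ) :=
    Finset.single_le_sum (f := fun i => ((e i - 1 - 0 : ℕ) : ℚ)) (fun i _ => Nat.cast_nonneg _) hi₀
  have h7 : (1 : ℚ) ≤ ((e i₀ - 1 - 0 : ℕ) : ℚ) := by
    have := h.two i₀
    exact_mod_cast (show 1 ≤ e i₀ - 1 - 0 by omega)
  have h8 : (k : ℚ) ≤ L := by linarith
  exact_mod_cast h8

theorem facts0_one (hn : 1 ≤ n) (hr : 0 < r) (c : ℤ × (Fin r → ℤ))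
    (hβ : -1 ≤ FU.bet δ e c) : Facts0 R e n c :=
  ⟨fun I hI => zero_mon h hd hn hr c 0 (by push_cast; linarith) I hI⟩

theorem facts1_one (hn : 1 ≤ n) (hr : 0 < r) (c : ℤ × (Fin r → ℤ))
    (hβ : 0 ≤ FU.bet δ e c) : Facts1 R e n c := by
  classical
  refine ⟨fun I hI => zero_mon h hd hn hr c 1 (by push_cast; linarith) I hI, ?_, ?_⟩
  · intro I hI i₀ hi₀
    obtain ⟨y, L, _, h3, h4, h5⟩ := pre h hd c I hI (fun i => if i = i₀ then 1 else 0)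
      (fun i _ => by
        have := h.two i
        split_ifs <;> omega)
    refine ⟨L, FU.aOf y, ?_, by rw [h3 i₀ hi₀, if_pos rfl],
      fun i hi hne => by rw [h3 i hi, if_neg hne], aOf_le y, h4⟩
    have h6 : (0 : ℚ) ≤ ∑ i ∈ I, ((e i - 1 - (if i = i₀ then 1 else 0) : ℕ) : ℚ) :=
      Finset.sum_nonneg fun i _ => Nat.cast_nonneg _
    have h8 : (0 : ℚ) ≤ L := by linarith
    exact_mod_cast h8
  · intro I hI Γ hΓ w hw
    have hne := h.neZero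
    obtain ⟨hw1, hw2, -⟩ := FU.mem_van.1 hw
    obtain ⟨y, L, h2, h3, h4, h5⟩ := pre h hd c I hI (fun _ => 0) (fun _ _ => Nat.zero_le _)
    have hgood : ∀ y' : (∀ i, ZMod (e i)), y' - FU.x0 e c ∈ FU.Lam R e →
        (∀ i ∈ I, y' i = y i) → FU.Good R e c I y' := by
      intro y' hy' hyI
      obtain ⟨L', hL1, hL2⟩ := h.exists_L c y' hy'
      refine ⟨fun i hi => ?_, L', ?_, hL1⟩
      · have := h3 i hi
        rw [FU.aOf] at this ⊢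
        rw [hyI i hi]
        exact this
      · have h6 : (0 : ℚ) ≤ L' := by
          rw [hL2]
          have : (0 : ℚ) ≤ ∑ i, ((y' i).val : ℚ) * (δ i / e i) :=
            Finset.sum_nonneg fun i _ => by positivity
          linarith
        exact_mod_cast h6
    have h7 := hΓ (y + w) y
      (hgood (y + w) (by
        have : y + w - FU.x0 e c = (y - FU.x0 e c) + w := by abel
        rw [this]
        exact (FU.Lam R e).add_mem h2 hw1) (fun i hi => by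
          rw [Pi.add_apply, hw2 i hi, add_zero]))
      (hgood y h2 fun _ _ => rfl)
    rwa [add_sub_cancel_left] at h7

end

end Pool.Agent.K3h47.TX
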