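import Pool.Agent.K3h47.TX.Stm

/-!
# Towers of abelian covers: étale covers (brick ETALE)
-/

set_option autoImplicit false

namespace Pool.Agent.K3h47.TX.Etale

open MvPolynomial Pool.Agent.K3h47.TX

section

variable {σ : Type} [Fintype σ]

lemma character_add (ρ ρ' : σ → ℤ) (t : σ → ℂˣ) :
    character (ρ + ρ') t = character ρ t * character ρ' t := by
  unfold character
  rw [← Finset.prod_mul_distrib]
  exact Finset.prod_congr rfl fun i _ => by rw [Pi.add_apply, zpow_add]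

lemma eval_act (C : Cone σ) {c : σ → ℤ} {Φ : MvPolynomial σ ℂ} (hΦ : C.IsSection c Φ)
    {t : σ → ℂˣ} (ht : C.InGroup t) (p : σ → ℂ) :
    eval (fun i => (t i : ℂ) * p i) Φ = ((character c t : ℂˣ) : ℂ) * eval p Φ := by
  rw [eval_eq', eval_eq', Finset.mul_sum]
  refine Finset.sum_congr rfl fun m hm => ?_
  have h1 : character (fun i => (m i : ℤ)) t = character c t := by
    have h2 := ht _ (hΦ m hm)
    have h3 := character_add ((fun i => (m i : ℤ)) - c) c t
    rw [sub_add_cancel, h2, one_mul] at h3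
    exact h3
  have h2 : ∏ i, (t i : ℂ) ^ m i = ((character c t : ℂˣ) : ℂ) := by
    rw [← h1]
    unfold character
    push_cast
    exact Finset.prod_congr rfl fun i _ => by rw [zpow_natCast]
  simp only [mul_pow, Finset.prod_mul_distrib]
  rw [h2]
  ring

lemma degree_add (C : Cone σ) (c ρ : σ → ℤ) : C.degree (c + ρ) = C.degree c + C.degree ρ := by
  unfold Cone.degree
  rw [← Finset.sum_add_distrib]
  exact Finset.sum_congr rfl fun i _ => by rw [Pi.add_apply]; push_cast; ring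

lemma omega_add (C : Cone σ) (c ρ : σ → ℤ) : C.omega (c + ρ) = C.omega c + C.omega ρ := by
  unfold Cone.omega
  rw [← Finset.sum_add_distrib]
  exact Finset.sum_congr rfl fun i _ => by rw [Pi.add_apply]; push_cast; ring

lemma degree_nsmul (C : Cone σ) (k : ℕ) (ρ : σ → ℤ) : C.degree (k • ρ) = k * C.degree ρ := by
  unfold Cone.degree
  rw [Finset.mul_sum]
  exact Finset.sum_congr rfl fun i _ => by
    rw [Pi.smul_apply, nsmul_eq_mul]; push_cast; ring

lemma omega_nsmul (C : Cone σ) (k : ℕ) (ρ : σ → ℤ) : C.omega (k • ρ) = k * C.omega ρ := by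
  unfold Cone.omega
  rw [Finset.mul_sum]
  exact Finset.sum_congr rfl fun i _ => by
    rw [Pi.smul_apply, nsmul_eq_mul]; push_cast; ring

lemma isSection_mono {C C' : Cone σ} (h : C.R ≤ C'.R) {c : σ → ℤ} {Φ : MvPolynomial σ ℂ}
    (hΦ : C.IsSection c Φ) : C'.IsSection c Φ := fun m hm => h (hΦ m hm)

lemma isSection_C_mul {C : Cone σ} {c : σ → ℤ} {Φ : MvPolynomial σ ℂ} (a : ℂ)
    (hΦ : C.IsSection c Φ) : C.IsSection c (MvPolynomial.C a * Φ) := by
  intro m hm
  apply hΦ m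
  rw [mem_support_iff, coeff_C_mul] at hm
  rw [mem_support_iff]
  exact right_ne_zero_of_mul hm

lemma isSection_sub {C : Cone σ} {c : σ → ℤ} {Φ Ψ : MvPolynomial σ ℂ}
    (hΦ : C.IsSection c Φ) (hΨ : C.IsSection c Ψ) : C.IsSection c (Φ - Ψ) := by
  intro m hm
  rw [mem_support_iff, coeff_sub] at hm
  by_cases h : coeff m Φ = 0
  · apply hΨ m
    rw [mem_support_iff]
    intro h1
    rw [h, h1, sub_zero] at hm
    exact hm rfl
  · exact hΦ m (mem_support_iff.2 h)

end

theorem t_ETALE : S_ETALE := by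
  intro κ σ _ C hI R' hle hfin
  set C' : Cone σ := { C with R := R' } with hC'
  have hle' : C.R ≤ C'.R := hle
  have hdeg : ∀ c, C'.degree c = C.degree c := fun c => rfl
  have hom : ∀ c, C'.omega c = C.omega c := fun c => rfl
  have hK : C'.K = C.K := rfl
  have degR : ∀ ρ ∈ R', C.degree ρ = 0 := by
    intro ρ hρ
    obtain ⟨k, hk, h⟩ := hfin ρ hρ
    have h1 := hI.degR _ h
    rw [degree_nsmul] at h1
    rcases mul_eq_zero.1 h1 with h2 | h2
    · exact absurd h2 (by exact_mod_cast hk.ne')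
    · exact h2
  have omR : ∀ ρ ∈ R', C.omega ρ = 0 := by
    intro ρ hρ
    obtain ⟨k, hk, h⟩ := hfin ρ hρ
    have h1 := hI.omR _ h
    rw [omega_nsmul] at h1
    rcases mul_eq_zero.1 h1 with h2 | h2
    · exact absurd h2 (by exact_mod_cast hk.ne')
    · exact h2
  obtain ⟨M, hM, hq, hmain⟩ := hI.main
  have hfree : ∀ c, C.Free c → C'.Free c := by
    intro c h p hp
    obtain ⟨Φ, h1, h2⟩ := h p hp
    exact ⟨Φ, isSection_mono hle' h1, h2⟩
  refine ⟨degR, omR, M, hM, hq, fun c hc => ⟨fun h => hfree c ((hmain c hc).1 h), fun h => ?_⟩⟩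
  obtain ⟨hF, hP, hT⟩ := (hmain c hc).2 h
  refine ⟨hfree c hF, ?_, ?_⟩
  · -- points
    intro p hp p' hp' hnc
    by_cases hcon : ∃ t, C.InGroup t ∧ ∀ i, p' i = t i * p i
    swap
    · obtain ⟨Φ, h1, h2, h3⟩ := hP p hp p' hp' hcon
      exact ⟨Φ, isSection_mono hle' h1, h2, h3⟩
    obtain ⟨t, ht, hpt⟩ := hcon
    have hnt : ¬ C'.InGroup t := fun h1 => hnc ⟨t, h1, hpt⟩
    have hρ : ∃ ρ ∈ R', character ρ t ≠ 1 := by
      by_contra h1
      push Not at h1
      exact hnt h1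
    obtain ⟨ρ, hρR, hρt⟩ := hρ
    have hc' : 0 ≤ C.omega (c + ρ - C.K) := by
      rw [show c + ρ - C.K = (c - C.K) + ρ by abel, omega_add, omR ρ hρR, add_zero]
      exact hc
    have hd' : C.degree (c + ρ - C.K) = C.degree (c - C.K) := by
      rw [show c + ρ - C.K = (c - C.K) + ρ by abel, degree_add, degR ρ hρR, add_zero]
    have hF' : C.Free (c + ρ) := by
      apply (hmain (c + ρ) hc').1
      rw [hd']
      have h2 : (1 - κ : ℚ) ≤ M * C.degree (c - C.K) := h
      linarith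
    obtain ⟨Φ, hΦ1, hΦ2⟩ := hF p hp
    obtain ⟨Ψ, hΨ1, hΨ2⟩ := hF' p hp
    have hpe : p' = fun i => (t i : ℂ) * p i := funext hpt
    have hΨ3 : C'.IsSection c Ψ := by
      intro m hm
      have h1 : ((fun i => (m i : ℤ)) - (c + ρ)) ∈ R' := hle (hΨ1 m hm)
      have h2 := R'.add_mem h1 hρR
      have h3 : ((fun i => (m i : ℤ)) - (c + ρ)) + ρ = (fun i => (m i : ℤ)) - c := by abel
      rw [h3] at h2
      exact h2
    refine ⟨MvPolynomial.C (eval p Φ) * Ψ - MvPolynomial.C (eval p Ψ) * Φ,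
      isSection_sub (isSection_C_mul _ hΨ3) (isSection_C_mul _ (isSection_mono hle' hΦ1)), ?_, ?_⟩
    · rw [map_sub, map_mul, map_mul, eval_C, eval_C]
      ring
    · rw [map_sub, map_mul, map_mul, eval_C, eval_C, hpe, eval_act C hΨ1 ht, eval_act C hΦ1 ht,
        character_add]
      push_cast
      have h1 : eval p Φ * (((character c t : ℂˣ) : ℂ) * ((character ρ t : ℂˣ) : ℂ) * eval p Ψ) -
          eval p Ψ * (((character c t : ℂˣ) : ℂ) * eval p Φ) =
          ((character c t : ℂˣ) : ℂ) * eval p Φ * eval p Ψ * (((character ρ t : ℂˣ) : ℂ) - 1) := by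
        ring
      rw [h1]
      refine mul_ne_zero (mul_ne_zero (mul_ne_zero (Units.ne_zero _) hΦ2) hΨ2) ?_
      rw [sub_ne_zero]
      intro h2
      exact hρt (Units.ext h2)
  · -- tangents
    intro p hp v hv hno
    have hno' : ¬ ∃ l : σ → ℂ, (∀ ρ ∈ C.R, ∑ i, (ρ i : ℂ) * l i = 0) ∧ ∀ i, v i = l i * p i := by
      rintro ⟨l, hl1, hl2⟩
      refine hno ⟨l, fun ρ hρ => ?_, hl2⟩
      obtain ⟨k, hk, h1⟩ := hfin ρ hρ
      have h2 := hl1 _ h1
      have h3 : ∑ i, (((k • ρ) i : ℤ) : ℂ) * l i = k * ∑ i, (ρ i : ℂ) * l i := by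
        rw [Finset.mul_sum]
        exact Finset.sum_congr rfl fun i _ => by
          rw [Pi.smul_apply, nsmul_eq_mul]; push_cast; ring
      rw [h3] at h2
      rcases mul_eq_zero.1 h2 with h4 | h4
      · exact absurd h4 (by exact_mod_cast hk.ne')
      · exact h4
    obtain ⟨Φ, h1, h2, h3⟩ := hT p hp v hv hno'
    exact ⟨Φ, isSection_mono hle' h1, h2, h3⟩

end Pool.Agent.K3h47.TX.Etale
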