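import Pool.Agent.K3h47.TX.Stm

/-!
# Towers of abelian covers (helper47), brick LIFT: lifting group elements (helper4)
-/

set_option autoImplicit false

namespace Pool.Agent.K3h47.TX.Lift

open Pool.Agent.K3h47.TX

theorem exists_root (s : ℂˣ) {k : ℤ} (hk : k ≠ 0) : ∃ u : ℂˣ, u ^ k = s := by
  obtain ⟨n, hn⟩ := Int.eq_nat_or_neg k
  have hn0 : n ≠ 0 := by
    rintro rfl
    rcases hn with h | h
    · exact hk (by rw [h]; rfl)
    · exact hk (by rw [h]; rfl)
  obtain ⟨z, hz⟩ := IsAlgClosed.exists_pow_nat_eq (s : ℂ) (Nat.pos_of_ne_zero hn0)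
  have hz0 : z ≠ 0 := by
    rintro rfl
    rw [zero_pow hn0] at hz
    exact s.ne_zero hz.symm
  have h1 : (Units.mk0 z hz0) ^ n = s := Units.ext hz
  rcases hn with h | h
  · exact ⟨Units.mk0 z hz0, by rw [h, zpow_natCast, h1]⟩
  · exact ⟨(Units.mk0 z hz0)⁻¹, by rw [h, inv_zpow, zpow_neg, inv_inv, zpow_natCast, h1]⟩

theorem baer : Module.Baer ℤ (Additive ℂˣ) := by
  have : DivisibleBy (Additive ℂˣ) ℤ := divisibleByOfSMulRightSurj _ _ (by
    intro n hn a
    obtain ⟨u, hu⟩ := exists_root (Additive.toMul a) hn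
    refine ⟨Additive.ofMul u, ?_⟩
    change n • Additive.ofMul u = a
    rw [← ofMul_zpow, hu]
    rfl)
  exact Module.Baer.of_divisible _

/-- the homomorphism `ρ ↦ character ρ t` -/
def chHom {σ : Type} [Fintype σ] (t : σ → ℂˣ) : (σ → ℤ) →+ Additive ℂˣ where
  toFun ρ := Additive.ofMul (character ρ t)
  map_zero' := by
    simp [character]
  map_add' a b := by
    rw [← ofMul_mul]
    congr 1
    simp [character, zpow_add, Finset.prod_mul_distrib]

/-- the embedding of the characters of the base -/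
def emb (σ : Type) (r : ℕ) : (σ → ℤ) →+ (σ ⊕ Fin r → ℤ) where
  toFun ρ := Sum.elim ρ 0
  map_zero' := by
    funext i
    rcases i with i | i <;> rfl
  map_add' a b := by
    funext i
    rcases i with i | i
    · rfl
    · simp

theorem t_LIFT : S_LIFT := by
  classical
  intro σ _ C r n D t ht
  obtain ⟨f, hf⟩ : ∃ f : (σ → ℤ) ⧸ C.R →+ (σ ⊕ Fin r → ℤ) ⧸ D.R,
      ∀ ρ : σ → ℤ, f (QuotientAddGroup.mk ρ) = QuotientAddGroup.mk (Sum.elim ρ 0) :=
    ⟨QuotientAddGroup.map C.R D.R (emb σ r) (fun ρ hρ => (D.res ρ).2 hρ), fun ρ => rfl⟩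
  have hinj : Function.Injective f := by
    rw [injective_iff_map_eq_zero]
    intro a ha
    obtain ⟨ρ, rfl⟩ := QuotientAddGroup.mk_surjective a
    rw [hf, QuotientAddGroup.eq_zero_iff] at ha
    rw [QuotientAddGroup.eq_zero_iff]
    exact (D.res ρ).1 ha
  obtain ⟨g, hg⟩ : ∃ g : (σ → ℤ) ⧸ C.R →+ Additive ℂˣ,
      ∀ ρ : σ → ℤ, g (QuotientAddGroup.mk ρ) = Additive.ofMul (character ρ t) :=
    ⟨QuotientAddGroup.lift C.R (chHom t) (fun ρ hρ => by
      change Additive.ofMul (character ρ t) = 0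
      rw [ht ρ hρ]
      rfl), fun ρ => rfl⟩
  obtain ⟨h, hh⟩ := baer.extension_property_addMonoidHom f hinj g
  have hval : ∀ ρ : σ → ℤ, h (QuotientAddGroup.mk (Sum.elim ρ 0 : σ ⊕ Fin r → ℤ)) =
      Additive.ofMul (character ρ t) := by
    intro ρ
    rw [← hf, ← hg, ← hh]
    rfl
  obtain ⟨s, hs⟩ : ∃ s : Fin r → ℂˣ, ∀ i, h (QuotientAddGroup.mk
      (Sum.elim 0 (Pi.single i 1) : σ ⊕ Fin r → ℤ)) = Additive.ofMul (s i) :=
    ⟨fun i => Additive.toMul (h (QuotientAddGroup.mk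
      (Sum.elim 0 (Pi.single i 1) : σ ⊕ Fin r → ℤ))), fun i => rfl⟩
  refine ⟨s, fun ρ hρ => ?_⟩
  have hρ' : ρ ∈ D.R := hρ
  have hdec : ρ = Sum.elim (fun i => ρ (Sum.inl i)) 0 +
      ∑ j, ρ (Sum.inr j) • (Sum.elim 0 (Pi.single j 1) : σ ⊕ Fin r → ℤ) := by
    funext i
    rcases i with i | i
    · simp [Finset.sum_apply]
    · simp [Finset.sum_apply, Pi.single_apply]
  have h0 : h (QuotientAddGroup.mk ρ) = 0 := by
    rw [(QuotientAddGroup.eq_zero_iff ρ).2 hρ', map_zero]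
  have hc : character ρ (Sum.elim t s) =
      character (fun i => ρ (Sum.inl i)) t * ∏ j, s j ^ ρ (Sum.inr j) := by
    simp [character, Fintype.prod_sum_type]
  rw [hc]
  have h1 : h (QuotientAddGroup.mk ρ) = Additive.ofMul (character (fun i => ρ (Sum.inl i)) t *
      ∏ j, s j ^ ρ (Sum.inr j)) := by
    have h2 : (QuotientAddGroup.mk ρ : (σ ⊕ Fin r → ℤ) ⧸ D.R) =
        QuotientAddGroup.mk (Sum.elim (fun i => ρ (Sum.inl i)) 0) +
        ∑ j, ρ (Sum.inr j) • QuotientAddGroup.mk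
          (Sum.elim 0 (Pi.single j 1) : σ ⊕ Fin r → ℤ) := by
      have h3 := congrArg (QuotientAddGroup.mk' D.R) hdec
      rw [map_add, map_sum] at h3
      simp only [map_zsmul] at h3
      exact h3
    rw [h2, map_add, map_sum, hval, ofMul_mul, ofMul_prod]
    congr 1
    refine Finset.sum_congr rfl fun j _ => ?_
    rw [map_zsmul, hs, ofMul_zpow]
  rw [h1] at h0
  exact h0

end Pool.Agent.K3h47.TX.Lift
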