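import Pool.Agent.K3h47.TX.Up

/-! The facts for covers with `κ = -n-1` for which the bound stays. -/

set_option autoImplicit false
set_option linter.unusedSectionVars false

namespace Pool.Agent.K3h47.TX

open FU

variable {n r : ℕ} {R : AddSubgroup (ℤ × (Fin r → ℤ))} {δ e : Fin r → ℕ}

section
variable (h : Dat R δ e n) {M : ℕ} (hM : M ≠ 0) (hd : ∀ j, e j ∣ M * δ j)
    (hF : ∀ p : ℕ, p.Prime → p ∣ M →
      n + 1 ≤ (Finset.univ.filter (fun j => p ^ M.factorization p ∣ e j)).card)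
    (c : ℤ × (Fin r → ℤ))
include h hM hd hF

/-- A monomial which does not vanish on `I`. -/
theorem E0s (hβ : -((n : ℚ) + 1) * M + n + 1 ≤ M * bet δ e c) (I : Finset (Fin r))
    (hI : I.card ≤ n) :
    ∃ (L : ℤ) (a : Fin r → ℕ), 0 ≤ L ∧ (∀ i ∈ I, a i = 0) ∧ (∀ i, a i ≤ e i - 1) ∧
      ((c.1 - L, fun i => c.2 i - (a i : ℤ)) : ℤ × (Fin r → ℤ)) ∈ R := by
  obtain ⟨L, a, h1, hb, h2, h3⟩ := E12b h hM hd hF c I hI (fun _ => 0) (fun i _ => Nat.zero_le _)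
  refine ⟨L, a, ?_, h1, hb, h2⟩
  have h4 := sum_ge h hM hd hF I
  have hMpos : (0 : ℚ) < M := by exact_mod_cast Nat.pos_of_ne_zero hM
  have h6 : (1 : ℚ) - M ≤ M * L := by nlinarith
  have h7 : (-1 : ℚ) < L := by
    by_contra hcon
    push Not at hcon
    nlinarith
  have h8 : (-1 : ℤ) < L := by exact_mod_cast h7
  omega

variable (hβ : -((n : ℚ) + 1) * M + n + 2 ≤ M * bet δ e c)
include hβ

/-- A monomial which does not vanish on `I`, with a coefficient of positive degree, if `I` contains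
a divisor of degree at least two. -/
theorem E1s (I : Finset (Fin r)) (hI : I.card ≤ n) (i₀ : Fin r) (hi₀ : i₀ ∈ I) (hδ : 2 ≤ δ i₀) :
    ∃ (L : ℤ) (a : Fin r → ℕ), 1 ≤ L ∧ (∀ i ∈ I, a i = 0) ∧ (∀ i, a i ≤ e i - 1) ∧
      ((c.1 - L, fun i => c.2 i - (a i : ℤ)) : ℤ × (Fin r → ℤ)) ∈ R := by
  classical
  have hne := h.neZero
  obtain ⟨L, y, hy, _, hR, htop, hL⟩ := h.exists_mon c I hI (fun _ => 0) (rest I)
  have h1 := low h hM hd hF c hβ I hI i₀ hi₀ (rest I) (rest_nodup I) (rest_notMem I) (rest_union I)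
    y (fun i hi _ => by rw [hy i hi, Nat.sub_zero]) (TopE.sum (M := M) _ _ htop) hL
  obtain ⟨he2, hg1, hg2, hg0⟩ := e_gcd h hM hd hF c hβ i₀
  have hnum := num_ge he2 hg1 hg2 hg0
  have hMpos : (0 : ℚ) < M := by exact_mod_cast Nat.pos_of_ne_zero hM
  have he0 : (0 : ℚ) < e i₀ := by linarith
  have h2 : ((y i₀).val : ℚ) = e i₀ - 1 := by
    rw [hy i₀ hi₀, Nat.sub_zero, Nat.cast_sub (by have := h.two i₀; omega), Nat.cast_one]
  have h3 : (2 * M : ℚ) * (1 - 1 / e i₀) ≤ ((y i₀).val : ℚ) * (M * (δ i₀ / e i₀)) := by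
    rw [h2]
    have h4 : (2 : ℚ) ≤ δ i₀ := by exact_mod_cast hδ
    have h5 : ((e i₀ : ℚ) - 1) * (M * (δ i₀ / e i₀)) = δ i₀ * M * (1 - 1 / e i₀) := by
      field_simp
    rw [h5]
    have h6 : (0 : ℚ) ≤ 1 - 1 / e i₀ := by
      have : 1 / (e i₀ : ℚ) ≤ 1 := by rw [div_le_one he0]; linarith
      linarith
    exact mul_le_mul_of_nonneg_right (mul_le_mul_of_nonneg_right h4 hMpos.le) h6
  have h4 : (1 : ℚ) ≤ M * L := by
    have h5 : (2 * M : ℚ) * (1 - 1 / e i₀) = M + M * (1 - 2 / e i₀) := by ring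
    linarith
  refine ⟨L, aOf y, ?_, fun i hi => by rw [aOf, hy i hi]; omega, aOf_le y, hR⟩
  have h7 : (0 : ℚ) < L := by
    by_contra hcon
    push Not at hcon
    nlinarith
  exact_mod_cast (show (0 : ℤ) < L by exact_mod_cast h7)

/-- A monomial vanishing at exactly one of the divisors `D_i`, `i ∈ I`, to the first order. -/
theorem E2s (I : Finset (Fin r)) (hI : I.card ≤ n) (i₀ : Fin r) (hi₀ : i₀ ∈ I) :
    ∃ (L : ℤ) (a : Fin r → ℕ), 0 ≤ L ∧ a i₀ = 1 ∧ (∀ i ∈ I, i ≠ i₀ → a i = 0) ∧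
      (∀ i, a i ≤ e i - 1) ∧
      ((c.1 - L, fun i => c.2 i - (a i : ℤ)) : ℤ × (Fin r → ℤ)) ∈ R := by
  classical
  have hne := h.neZero
  obtain ⟨L, y, hy, _, hR, htop, hL⟩ := h.exists_mon c I hI (fun i => if i = i₀ then 1 else 0)
    (rest I)
  have h1 := low h hM hd hF c hβ I hI i₀ hi₀ (rest I) (rest_nodup I) (rest_notMem I) (rest_union I)
    y (fun i hi hne => by rw [hy i hi, if_neg hne, Nat.sub_zero])
    (TopE.sum (M := M) _ _ htop) hL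
  obtain ⟨he2, hg1, hg2, hg0⟩ := e_gcd h hM hd hF c hβ i₀
  have hnum := num_ge he2 hg1 hg2 hg0
  have hMpos : (0 : ℚ) < M := by exact_mod_cast Nat.pos_of_ne_zero hM
  have he0 : (0 : ℚ) < e i₀ := by linarith
  have h2 : ((y i₀).val : ℚ) = e i₀ - 2 := by
    have h3 := h.two i₀
    rw [hy i₀ hi₀, if_pos rfl, Nat.sub_sub, Nat.cast_sub (by omega)]
    norm_num
  have h3 : (M : ℚ) * (1 - 2 / e i₀) ≤ ((y i₀).val : ℚ) * (M * (δ i₀ / e i₀)) := by
    rw [h2]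
    have h4 : (1 : ℚ) ≤ δ i₀ := by exact_mod_cast h.δpos i₀
    have h5 : ((e i₀ : ℚ) - 2) * (M * (δ i₀ / e i₀)) = δ i₀ * (M * (1 - 2 / e i₀)) := by
      field_simp
    rw [h5]
    have h6 : (0 : ℚ) ≤ M * (1 - 2 / e i₀) := by
      refine mul_nonneg hMpos.le ?_
      have : 2 / (e i₀ : ℚ) ≤ 1 := by rw [div_le_one he0]; exact he2
      linarith
    nlinarith
  have h4 : (1 : ℚ) - M ≤ M * L := by linarith
  refine ⟨L, aOf y, ?_, ?_, ?_, aOf_le y, hR⟩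
  · have h7 : (-1 : ℚ) < L := by
      by_contra hcon
      push Not at hcon
      nlinarith
    have h8 : (-1 : ℤ) < L := by exact_mod_cast h7
    omega
  · have := h.two i₀
    rw [aOf, hy i₀ hi₀, if_pos rfl]
    omega
  · intro i hi hne
    rw [aOf, hy i hi, if_neg hne]
    omega

end

section
variable (h : Dat R δ e n) {M : ℕ} (hM : M ≠ 0) (hd : ∀ j, e j ∣ M * δ j)
    (hF : ∀ p : ℕ, p.Prime → p ∣ M →
      n + 1 ≤ (Finset.univ.filter (fun j => p ^ M.factorization p ∣ e j)).card)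
    (c : ℤ × (Fin r → ℤ))
include h hM hd hF

theorem facts0_stay (hβ : -((n : ℚ) + 1) * M + n + 1 ≤ M * bet δ e c) : Facts0 R e n c :=
  ⟨fun I hI => E0s h hM hd hF c hβ I hI⟩

theorem facts1_stay (hM1 : M ≠ 1) (S : Finset (Fin r)) (hS : ∀ i ∉ S, 2 ≤ δ i) (hk : S.card < n)
    (hβ : -((n : ℚ) + 1) * M + n + 2 ≤ M * bet δ e c) : Facts1 R e n c := by
  classical
  refine ⟨fun I hI => ?_, fun I hI i₀ hi₀ => E2s h hM hd hF c hβ I hI i₀ hi₀,
    fun I hI Γ hΓ => E3' h hM hd hF c hβ I hI Γ hΓ⟩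
  obtain ⟨J, hIJ, hJ⟩ := exists_J hM1 hF I hI
  obtain ⟨i₀, hi₀, hiS⟩ := Finset.exists_mem_notMem_of_card_lt_card (s := S) (t := J) (by omega)
  obtain ⟨L, a, h1, h2, h3, h4⟩ := E1s h hM hd hF c hβ J hJ.le i₀ hi₀ (hS i₀ hiS)
  exact ⟨L, a, h1, fun i hi => h2 i (hIJ hi), h3, h4⟩

end

end Pool.Agent.K3h47.TX
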