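import Pool.Agent.K3h47.TX.Arith
import Pool.Agent.K3h47.FU.EE2

/-! The facts for covers with few branch divisors of minimal degree. -/

set_option autoImplicit false
set_option linter.unusedSectionVars false

namespace Pool.Agent.K3h47.TX

open FU

variable {n r : ℕ} {R : AddSubgroup (ℤ × (Fin r → ℤ))} {δ e : Fin r → ℕ}

/-- the bonus of a divisor which is not of minimal degree -/
noncomputable def uu (δ : Fin r → ℕ) (M : ℕ) (i : Fin r) : ℚ := if 2 ≤ δ i then (M : ℚ) / 2 else 0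

theorem uu_nonneg (δ : Fin r → ℕ) (M : ℕ) (i : Fin r) : 0 ≤ uu δ M i := by
  rw [uu]
  split_ifs <;> positivity

theorem uu_le (δ : Fin r → ℕ) (M : ℕ) (i : Fin r) : uu δ M i ≤ (M : ℚ) / 2 := by
  have : (0 : ℚ) ≤ (M : ℚ) / 2 := by positivity
  rw [uu]
  split_ifs
  · exact le_rfl
  · exact this

section
variable (h : Dat R δ e n) {M : ℕ} (hM : M ≠ 0) (hd : ∀ j, e j ∣ M * δ j)
include h hM hd

theorem L_geI (y : ∀ i, ZMod (e i)) (I : Finset (Fin r)) (l : List (Fin r)) (hnd : l.Nodup)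
    (hlI : ∀ j ∈ l, j ∉ I) :
    ∑ i ∈ I, ((y i).val : ℚ) * (M * (δ i / e i))
      + (l.map fun j => ((y j).val * wt e M j : ℚ)).sum ≤
      M * ∑ i, ((y i).val : ℚ) * (δ i / e i) := by
  classical
  have h1 : (l.map fun j => ((y j).val * wt e M j : ℚ)).sum
      = ∑ j ∈ l.toFinset, ((y j).val : ℚ) * wt e M j := by
    rw [List.sum_toFinset _ hnd]
  have hdisj : Disjoint I l.toFinset := Finset.disjoint_left.2 fun i hi hi' =>
    hlI i (List.mem_toFinset.1 hi') hi
  rw [h1, Finset.mul_sum]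
  have h2 : ∀ i, ((y i).val : ℚ) * wt e M i ≤ ((y i).val : ℚ) * (M * (δ i / e i)) := by
    intro i
    exact mul_le_mul_of_nonneg_left (h.wt_le hM hd i) (by positivity)
  calc ∑ i ∈ I, ((y i).val : ℚ) * (M * (δ i / e i))
        + ∑ j ∈ l.toFinset, ((y j).val : ℚ) * wt e M j
      ≤ ∑ i ∈ I, ((y i).val : ℚ) * (M * (δ i / e i))
        + ∑ j ∈ l.toFinset, ((y j).val : ℚ) * (M * (δ j / e j)) := by
        have := Finset.sum_le_sum (s := l.toFinset) fun i _ => h2 i
        linarith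
    _ = ∑ j ∈ I ∪ l.toFinset, ((y j).val : ℚ) * (M * (δ j / e j)) :=
        (Finset.sum_union hdisj).symm
    _ ≤ ∑ j, ((y j).val : ℚ) * (M * (δ j / e j)) :=
        Finset.sum_le_sum_of_subset_of_nonneg (Finset.subset_univ _) fun i _ _ => by positivity
    _ = ∑ i, M * (((y i).val : ℚ) * (δ i / e i)) := Finset.sum_congr rfl fun i _ => by ring

theorem term0 (i : Fin r) : (M : ℚ) - 1 + uu δ M i ≤
    ((e i - 1 : ℕ) : ℚ) * (M * (δ i / e i)) + ((wt e M i : ℚ) - 1) := by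
  have hne := h.neZero i
  have h2 := h.two i
  have he2 : (2 : ℚ) ≤ e i := by exact_mod_cast h2
  have he0 : (0 : ℚ) < e i := by linarith
  have hMpos : (0 : ℚ) < M := by exact_mod_cast Nat.pos_of_ne_zero hM
  have hcast : ((e i - 1 : ℕ) : ℚ) = (e i : ℚ) - 1 := by
    rw [Nat.cast_sub (by omega)]
    norm_num
  rw [uu]
  split_ifs with hδ
  · have h4 : (M : ℚ) / e i ≤ wt e M i := by
      rw [div_le_iff₀ he0]
      have := wt_mul_ge (m := fun _ : Fin r => e i) M i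
      have h5 : (M : ℚ) ≤ e i * wt e M i := by exact_mod_cast this
      linarith
    have h5 : (2 : ℚ) ≤ δ i := by exact_mod_cast hδ
    have h6 : (M : ℚ) / e i ≤ M / 2 := div_le_div_of_nonneg_left hMpos.le (by norm_num) he2
    have h7 : ((e i : ℚ) - 1) * (M * (δ i / e i)) = δ i * (M - M / e i) := by
      field_simp
    have h8 : (0 : ℚ) ≤ M - M / e i := by linarith
    rw [hcast, h7]
    nlinarith
  · have h4 := h.wt_le hM hd i
    have h5 := wt_sum_ge h (M := M) i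
    have h6 : ((e i - 1 : ℕ) : ℚ) * wt e M i ≤ ((e i - 1 : ℕ) : ℚ) * (M * (δ i / e i)) :=
      mul_le_mul_of_nonneg_left h4 (by positivity)
    linarith

theorem term1 (i : Fin r) : (M : ℚ) - 1 + uu δ M i - M ≤
    ((e i - 1 - 1 : ℕ) : ℚ) * (M * (δ i / e i)) + ((wt e M i : ℚ) - 1) := by
  have hne := h.neZero i
  have h2 := h.two i
  have he2 : (2 : ℚ) ≤ e i := by exact_mod_cast h2
  have he0 : (0 : ℚ) < e i := by linarith
  have hMpos : (0 : ℚ) < M := by exact_mod_cast Nat.pos_of_ne_zero hM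
  have hcast : ((e i - 1 - 1 : ℕ) : ℚ) = (e i : ℚ) - 2 := by
    rw [Nat.sub_sub, Nat.cast_sub (by omega)]
    norm_num
  have h4 : (M : ℚ) / e i ≤ wt e M i := by
    rw [div_le_iff₀ he0]
    have := wt_mul_ge (m := fun _ : Fin r => e i) M i
    have h5 : (M : ℚ) ≤ e i * wt e M i := by exact_mod_cast this
    linarith
  have h5 : (1 : ℚ) ≤ δ i := by exact_mod_cast h.δpos i
  have h6 : (M : ℚ) / e i ≤ M / 2 := div_le_div_of_nonneg_left hMpos.le (by norm_num) he2
  have h7 : ((e i : ℚ) - 2) * (M * (δ i / e i)) = δ i * (M - 2 * (M / e i)) := by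
    field_simp
  have h8 : (0 : ℚ) ≤ M - 2 * (M / e i) := by linarith
  have h9 := uu_le δ M i
  rw [hcast, h7]
  nlinarith

variable (hF : ∀ p : ℕ, p.Prime → p ∣ M →
      n + 1 ≤ (Finset.univ.filter (fun j => p ^ M.factorization p ∣ e j)).card)
    (c : ℤ × (Fin r → ℤ))
include hF

theorem E12c (I : Finset (Fin r)) (hI : I.card ≤ n) (b : Fin r → ℕ)
    (hb : ∀ i ∈ I, b i ≤ e i - 1) :
    ∃ (L : ℤ) (a : Fin r → ℕ), (∀ i ∈ I, a i = b i) ∧ (∀ i, a i ≤ e i - 1) ∧
      ((c.1 - L, fun i => c.2 i - (a i : ℤ)) : ℤ × (Fin r → ℤ)) ∈ R ∧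
      M * bet δ e c + ∑ i ∈ I, (((e i - 1 - b i : ℕ) : ℚ) * (M * (δ i / e i)))
        + (∑ i ∈ I, ((wt e M i : ℚ) - 1) + ((n : ℚ) - I.card) * (M - 1)) ≤ M * L := by
  classical
  have hne := h.neZero
  obtain ⟨l, hnd, hlI, hlu, htot⟩ := exists_list M hM (Lam R e) n h.sur hF I hI
  obtain ⟨z, hz1, hz2⟩ := h.exists_pre (x0 e c) I hI
    (fun i => ((e i - 1 - b i : ℕ) : ZMod (e i)))
  obtain ⟨y, hy1, hy2, hy3⟩ := exists_topOn (M := M) (Lam R e) l I z
  have hyx : y - x0 e c ∈ Lam R e := by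
    have : y - x0 e c = (y - z) + (z - x0 e c) := by abel
    rw [this]
    exact (Lam R e).add_mem hy1 hz1
  obtain ⟨L, hL1, hL2⟩ := h.exists_L c y hyx
  have hval : ∀ i ∈ I, (y i).val = e i - 1 - b i := by
    intro i hi
    rw [hy2 i hi, hz2 i hi]
    exact val_cast _
  refine ⟨L, aOf y, ?_, aOf_le y, hL1, ?_⟩
  · intro i hi
    rw [aOf, hval i hi]
    have := hb i hi
    omega
  · have h1 := L_geI h hM hd y I l hnd hlI
    have h2 := TopOn.sum l I hy3
    have h3 : ∑ i ∈ I, ((y i).val : ℚ) * (M * (δ i / e i))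
        = ∑ i ∈ I, (((e i - 1 - b i : ℕ) : ℚ) * (M * (δ i / e i))) :=
      Finset.sum_congr rfl fun i hi => by rw [hval i hi]
    rw [h3] at h1
    rw [hL2, mul_add]
    linarith

/-- monomials for a full set of coordinates -/
theorem full0 (J : Finset (Fin r)) (hJ : J.card = n) :
    ∃ (L : ℤ) (a : Fin r → ℕ), (∀ i ∈ J, a i = 0) ∧ (∀ i, a i ≤ e i - 1) ∧
      ((c.1 - L, fun i => c.2 i - (a i : ℤ)) : ℤ × (Fin r → ℤ)) ∈ R ∧
      M * bet δ e c + n * ((M : ℚ) - 1) + ∑ i ∈ J, uu δ M i ≤ M * L := by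
  obtain ⟨L, a, h1, h2, h3, h4⟩ := E12c h hM hd hF c J hJ.le (fun _ => 0)
    (fun i _ => Nat.zero_le _)
  refine ⟨L, a, h1, h2, h3, ?_⟩
  have h5 : ∑ i ∈ J, ((M : ℚ) - 1 + uu δ M i) ≤
      ∑ i ∈ J, (((e i - 1 - 0 : ℕ) : ℚ) * (M * (δ i / e i)) + ((wt e M i : ℚ) - 1)) :=
    Finset.sum_le_sum fun i _ => by simpa using term0 h hM hd i
  rw [Finset.sum_add_distrib, Finset.sum_add_distrib, Finset.sum_const, nsmul_eq_mul, hJ] at h5
  rw [hJ] at h4
  linarith

theorem full1 (J : Finset (Fin r)) (hJ : J.card = n) (i₀ : Fin r) (hi₀ : i₀ ∈ J) :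
    ∃ (L : ℤ) (a : Fin r → ℕ), a i₀ = 1 ∧ (∀ i ∈ J, i ≠ i₀ → a i = 0) ∧ (∀ i, a i ≤ e i - 1) ∧
      ((c.1 - L, fun i => c.2 i - (a i : ℤ)) : ℤ × (Fin r → ℤ)) ∈ R ∧
      M * bet δ e c + n * ((M : ℚ) - 1) + ∑ i ∈ J, uu δ M i - M ≤ M * L := by
  classical
  obtain ⟨L, a, h1, h2, h3, h4⟩ := E12c h hM hd hF c J hJ.le (fun i => if i = i₀ then 1 else 0)
    (fun i _ => by
      have := h.two i
      split_ifs <;> omega)
  refine ⟨L, a, by rw [h1 i₀ hi₀, if_pos rfl], fun i hi hne => by rw [h1 i hi, if_neg hne],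
    h2, h3, ?_⟩
  have h5 : ∑ i ∈ J, ((M : ℚ) - 1 + uu δ M i - if i = i₀ then (M : ℚ) else 0) ≤
      ∑ i ∈ J, (((e i - 1 - (if i = i₀ then 1 else 0) : ℕ) : ℚ) * (M * (δ i / e i))
        + ((wt e M i : ℚ) - 1)) := by
    refine Finset.sum_le_sum fun i _ => ?_
    by_cases hi : i = i₀
    · rw [if_pos hi, if_pos hi]
      exact term1 h hM hd i
    · rw [if_neg hi, if_neg hi, sub_zero]
      simpa using term0 h hM hd i
  rw [Finset.sum_add_distrib, Finset.sum_sub_distrib, Finset.sum_add_distrib, Finset.sum_const,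
    nsmul_eq_mul, hJ, Finset.sum_ite_eq' J i₀, if_pos hi₀] at h5
  rw [hJ] at h4
  linarith

/-- The differences of the classes of the monomials generate. -/
theorem gen_up (I : Finset (Fin r)) (hI : I.card ≤ n)
    (hu : -(M : ℚ) < M * bet δ e c + n * ((M : ℚ) - 1) + ∑ i ∈ I, uu δ M i - 1)
    (Γ : AddSubgroup (∀ i, ZMod (e i)))
    (hΓ : ∀ y y', Good R e c I y → Good R e c I y' → y - y' ∈ Γ) :
    ∀ x ∈ van (Lam R e) I 0, x ∈ Γ := by
  classical
  have hne := h.neZero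
  have hMpos : (0 : ℚ) < M := by exact_mod_cast Nat.pos_of_ne_zero hM
  obtain ⟨L₀, z, hz, hzx, hR, htop, hL₀⟩ := h.exists_mon c I hI (fun _ => 0) (rest I)
  have hgood : ∀ y, y - z ∈ Lam R e → (∀ i ∈ I, y i = z i) →
      (∑ i ∈ I, (((M / Nat.gcd M (e i) : ℕ) : ℚ) - 1) + ((n : ℚ) - I.card) * (M - 1) - 1 ≤
        ((rest I).map fun j => ((y j).val * wt e M j : ℚ)).sum) → Good R e c I y := by
    intro y hyz hyI hsum
    have hval : ∀ i ∈ I, (y i).val = e i - 1 := by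
      intro i hi
      rw [hyI i hi, hz i hi, Nat.sub_zero]
    have hyx : y - x0 e c ∈ Lam R e := by
      have : y - x0 e c = (y - z) + (z - x0 e c) := by abel
      rw [this]
      exact (Lam R e).add_mem hyz hzx
    obtain ⟨L, hL1, hL2⟩ := h.exists_L c y hyx
    refine ⟨fun i hi => by rw [aOf, hval i hi]; omega, L, ?_, hL1⟩
    have h1 := L_geI h hM hd y I (rest I) (rest_nodup I) (rest_notMem I)
    have h3 : ∑ i ∈ I, ((y i).val : ℚ) * (M * (δ i / e i))
        = ∑ i ∈ I, (((e i - 1 : ℕ) : ℚ) * (M * (δ i / e i))) :=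
      Finset.sum_congr rfl fun i hi => by rw [hval i hi]
    rw [h3] at h1
    have h5 : ∑ i ∈ I, ((M : ℚ) - 1 + uu δ M i) ≤
        ∑ i ∈ I, (((e i - 1 : ℕ) : ℚ) * (M * (δ i / e i)) + ((wt e M i : ℚ) - 1)) :=
      Finset.sum_le_sum fun i _ => term0 h hM hd i
    rw [Finset.sum_add_distrib, Finset.sum_add_distrib, Finset.sum_const, nsmul_eq_mul] at h5
    have h6 : ∑ i ∈ I, (((M / Nat.gcd M (e i) : ℕ) : ℚ) - 1) = ∑ i ∈ I, ((wt e M i : ℚ) - 1) := rfl
    rw [h6] at hsum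
    have h5 : -(M : ℚ) < M * L := by
      rw [hL2, mul_add]
      linarith
    have h7 : (-1 : ℚ) < L := by
      by_contra hcon
      push Not at hcon
      nlinarith
    have h8 : (-1 : ℤ) < L := by exact_mod_cast h7
    omega
  have hzgood : Good R e c I z := hgood z (by rw [sub_self]; exact (Lam R e).zero_mem)
    (fun _ _ => rfl) (by
      have h1 := TopE.sum (M := M) _ _ htop
      have h2 := tot_ge0 hM (Lam R e) n h.sur hF I hI (rest I) (rest_union I)
      linarith)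
  refine gen2 (M := M) (Lam R e) z Γ (rest I) I (rest_union I) htop fun y h1 h2 h3 =>
    hΓ y z (hgood y h1 h2 ?_) hzgood
  obtain ⟨l₁, j, l₂, hl, hg, hle⟩ := h3
  refine le_trans ?_ hle
  exact tot_second hM (Lam R e) n h.sur hF I hI l₁ l₂ j (by rw [← hl]; exact rest_union I) hg

/-- the generation for a small set follows from that for two larger ones -/
theorem gen_ext (I : Finset (Fin r)) (j j' : Fin r) (hj : j ∉ I) (hj' : j' ∉ I) (hjj : j ≠ j')
    (hI : (insert j' (insert j I)).card ≤ n) (Γ : AddSubgroup (∀ i, ZMod (e i)))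
    (h1 : ∀ x ∈ van (Lam R e) (insert j I) 0, x ∈ Γ)
    (h2 : ∀ x ∈ van (Lam R e) (insert j' I) 0, x ∈ Γ) :
    ∀ x ∈ van (Lam R e) I 0, x ∈ Γ := by
  classical
  have hne := h.neZero
  intro x hx
  obtain ⟨ρ, hρ, hρ1, hρ0⟩ := h.sur _ hI j' (Finset.mem_insert_self _ _)
  obtain ⟨hx1, hx2, -⟩ := mem_van.1 hx
  have hρI : ∀ i ∈ I, ρ i = 0 := fun i hi => hρ0 i
    (Finset.mem_insert_of_mem (Finset.mem_insert_of_mem hi)) (fun h3 => hj' (h3 ▸ hi))
  have hρj : ρ j = 0 := hρ0 j (Finset.mem_insert_of_mem (Finset.mem_insert_self _ _)) hjj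
  have h3 : (x j').val • ρ ∈ van (Lam R e) (insert j I) 0 := by
    refine ⟨(Lam R e).nsmul_mem hρ _, ?_, by rw [zero_smul]⟩
    intro i hi
    rw [Pi.smul_apply]
    rcases Finset.mem_insert.1 hi with rfl | hi
    · rw [hρj, smul_zero]
    · rw [hρI i hi, smul_zero]
  have h4 : x - (x j').val • ρ ∈ van (Lam R e) (insert j' I) 0 := by
    refine ⟨(Lam R e).sub_mem hx1 ((Lam R e).nsmul_mem hρ _), ?_, by rw [zero_smul]⟩
    intro i hi
    rw [Pi.sub_apply, Pi.smul_apply]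
    rcases Finset.mem_insert.1 hi with rfl | hi
    · rw [hρ1, nsmul_eq_mul, mul_one, ZMod.natCast_zmod_val, sub_self]
    · rw [hρI i hi, smul_zero, hx2 i hi, sub_zero]
  have h5 : x = (x - (x j').val • ρ) + (x j').val • ρ := by abel
  rw [h5]
  exact Γ.add_mem (h2 _ h4) (h1 _ h3)

end

section
variable (h : Dat R δ e n) {M : ℕ} (hM : M ≠ 0) (hM1 : M ≠ 1) (hd : ∀ j, e j ∣ M * δ j)
    (hF : ∀ p : ℕ, p.Prime → p ∣ M →
      n + 1 ≤ (Finset.univ.filter (fun j => p ^ M.factorization p ∣ e j)).card)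
include hM1 hF

theorem n_lt_r : n + 1 ≤ r := by
  obtain ⟨p, hp, hpM⟩ := Nat.exists_prime_and_dvd hM1
  have h2 := hF p hp hpM
  have h3 := Finset.card_le_univ (Finset.univ.filter (fun j => p ^ M.factorization p ∣ e j))
  rw [Fintype.card_fin] at h3
  omega

theorem exists_J (I : Finset (Fin r)) (hI : I.card ≤ n) :
    ∃ J : Finset (Fin r), I ⊆ J ∧ J.card = n := by
  have h1 := n_lt_r hM1 hF
  exact Finset.exists_superset_card_eq hI (by rw [Fintype.card_fin]; omega)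

variable (c : ℤ × (Fin r → ℤ)) (S : Finset (Fin r)) (hS : ∀ i ∉ S, 2 ≤ δ i) (k : ℕ)
    (hk : S.card + k ≤ n)
include h hM hd hS hk

omit h hM hM1 hd hF in
theorem sum_uu (J : Finset (Fin r)) (hJ : J.card = n) :
    (k : ℚ) * (M / 2) ≤ ∑ i ∈ J, uu δ M i := by
  classical
  have h1 : k ≤ (J \ S).card := by
    have := Finset.le_card_sdiff S J
    omega
  have h2 : ∑ _i ∈ J \ S, ((M : ℚ) / 2) ≤ ∑ i ∈ J \ S, uu δ M i := by
    refine Finset.sum_le_sum fun i hi => ?_
    rw [uu, if_pos (hS i (Finset.mem_sdiff.1 hi).2)]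
  have h3 : ∑ i ∈ J \ S, uu δ M i ≤ ∑ i ∈ J, uu δ M i :=
    Finset.sum_le_sum_of_subset_of_nonneg Finset.sdiff_subset fun i _ _ => uu_nonneg δ M i
  rw [Finset.sum_const, nsmul_eq_mul] at h2
  have h4 : (k : ℚ) ≤ (J \ S).card := by exact_mod_cast h1
  have h5 : (k : ℚ) * (M / 2) ≤ ((J \ S).card : ℚ) * (M / 2) :=
    mul_le_mul_of_nonneg_right h4 (by positivity)
  linarith

theorem facts0_up (hβ : -(M : ℚ) < M * bet δ e c + n * ((M : ℚ) - 1) + k * (M / 2)) :
    Facts0 R e n c := by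
  have hMpos : (0 : ℚ) < M := by exact_mod_cast Nat.pos_of_ne_zero hM
  refine ⟨fun I hI => ?_⟩
  obtain ⟨J, hIJ, hJ⟩ := exists_J hM1 hF I hI
  obtain ⟨L, a, h1, h2, h3, h4⟩ := full0 h hM hd hF c J hJ
  refine ⟨L, a, ?_, fun i hi => h1 i (hIJ hi), h2, h3⟩
  have h5 := sum_uu (M := M) S hS k hk J hJ
  have h7 : (-1 : ℚ) < L := by
    by_contra hcon
    push Not at hcon
    nlinarith
  have h8 : (-1 : ℤ) < L := by exact_mod_cast h7
  omega

theorem facts1_up (hβ : 0 < M * bet δ e c + n * ((M : ℚ) - 1) + k * (M / 2))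
    (hg : -(M : ℚ) < M * bet δ e c + n * ((M : ℚ) - 1) - 1 ∨
      (2 ≤ k ∧ -(M : ℚ) < M * bet δ e c + n * ((M : ℚ) - 1) + M / 2 - 1)) :
    Facts1 R e n c := by
  classical
  have hMpos : (0 : ℚ) < M := by exact_mod_cast Nat.pos_of_ne_zero hM
  refine ⟨fun I hI => ?_, fun I hI i₀ hi₀ => ?_, fun I hI Γ hΓ => ?_⟩
  · obtain ⟨J, hIJ, hJ⟩ := exists_J hM1 hF I hI
    obtain ⟨L, a, h1, h2, h3, h4⟩ := full0 h hM hd hF c J hJ
    refine ⟨L, a, ?_, fun i hi => h1 i (hIJ hi), h2, h3⟩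
    have h5 := sum_uu (M := M) S hS k hk J hJ
    have h7 : (0 : ℚ) < L := by
      by_contra hcon
      push Not at hcon
      nlinarith
    have h8 : (0 : ℤ) < L := by exact_mod_cast h7
    omega
  · obtain ⟨J, hIJ, hJ⟩ := exists_J hM1 hF I hI
    obtain ⟨L, a, h0, h1, h2, h3, h4⟩ := full1 h hM hd hF c J hJ i₀ (hIJ hi₀)
    refine ⟨L, a, ?_, h0, fun i hi hne => h1 i (hIJ hi) hne, h2, h3⟩
    have h5 := sum_uu (M := M) S hS k hk J hJ
    have h7 : (-1 : ℚ) < L := by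
      by_contra hcon
      push Not at hcon
      nlinarith
    have h8 : (-1 : ℤ) < L := by exact_mod_cast h7
    omega
  · rcases hg with hg | ⟨hk2, hg⟩
    · refine gen_up h hM hd hF c I hI ?_ Γ hΓ
      have := Finset.sum_nonneg (s := I) fun i _ => uu_nonneg δ M i
      linarith
    · have hone : ∀ I' : Finset (Fin r), I'.card ≤ n → ∀ i ∈ I', 2 ≤ δ i →
          (∀ y y', Good R e c I' y → Good R e c I' y' → y - y' ∈ Γ) →
          ∀ x ∈ van (Lam R e) I' 0, x ∈ Γ := by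
        intro I' hI' i hi hδ hΓ'
        refine gen_up h hM hd hF c I' hI' ?_ Γ hΓ'
        have h1 : uu δ M i ≤ ∑ i ∈ I', uu δ M i :=
          Finset.single_le_sum (f := fun i => uu δ M i) (fun i _ => uu_nonneg δ M i) hi
        rw [uu, if_pos hδ] at h1
        linarith
      by_cases hex : ∃ i ∈ I, 2 ≤ δ i
      · obtain ⟨i, hi, hδ⟩ := hex
        exact hone I hI i hi hδ hΓ
      · push Not at hex
        have hIS : I ⊆ S := by
          intro i hi
          by_contra hiS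
          have := hS i hiS
          have := hex i hi
          omega
        have hIc := Finset.card_le_card hIS
        have hr := n_lt_r hM1 hF
        have h1 : 1 < (Finset.univ \ S).card := by
          have := Finset.le_card_sdiff S (Finset.univ : Finset (Fin r))
          rw [Finset.card_univ, Fintype.card_fin] at this
          omega
        obtain ⟨j, hj, j', hj', hjj⟩ := Finset.one_lt_card.1 h1
        have hjS := (Finset.mem_sdiff.1 hj).2
        have hjS' := (Finset.mem_sdiff.1 hj').2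
        have hjI : j ∉ I := fun h2 => hjS (hIS h2)
        have hjI' : j' ∉ I := fun h2 => hjS' (hIS h2)
        have hsub : ∀ w y, Good R e c (insert w I) y → Good R e c I y := fun w y hy =>
          ⟨fun i hi => hy.1 i (Finset.mem_insert_of_mem hi), hy.2⟩
        have hc1 : ∀ w, (insert w I).card ≤ I.card + 1 := fun w => Finset.card_insert_le w I
        refine gen_ext h hM hd hF I j j' hjI hjI' hjj ?_ Γ ?_ ?_
        · have h2 := Finset.card_insert_le j' (insert j I)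
          have h3 := hc1 j
          omega
        · exact hone _ (by have := hc1 j; omega) j (Finset.mem_insert_self _ _) (hS j hjS)
            fun y y' hy hy' => hΓ y y' (hsub j y hy) (hsub j y' hy')
        · exact hone _ (by have := hc1 j'; omega) j' (Finset.mem_insert_self _ _) (hS j' hjS')
            fun y y' hy hy' => hΓ y y' (hsub j' y hy) (hsub j' y' hy')

end

end Pool.Agent.K3h47.TX
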