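import Pool.Agent.K3h47.TX.Defs
import Pool.Agent.K3h47.FU.Main

/-! Statements for the towers of abelian covers. -/

set_option autoImplicit false

namespace Pool.Agent.K3h47.TX

open MvPolynomial

/-- The property which is proved by induction. -/
structure Inv (κ : ℤ) {σ : Type} [Fintype σ] (C : Cone σ) : Prop where
  degR : ∀ ρ ∈ C.R, C.degree ρ = 0
  omR : ∀ ρ ∈ C.R, C.omega ρ = 0
  main : ∃ M : ℕ, M ≠ 0 ∧ (∀ i, ∃ q : ℤ, (M : ℚ) * C.deg i = q) ∧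
    ∀ c : σ → ℤ, 0 ≤ C.omega (c - C.K) →
      ((-κ : ℚ) ≤ M * C.degree (c - C.K) → C.Free c) ∧
      ((1 - κ : ℚ) ≤ M * C.degree (c - C.K) → C.VeryAmple c)

/-- the base -/
def S_BASE : Prop := ∀ (N N' c : ℕ) (G : Fin c → MvPolynomial (Fin (N + 1) ⊕ Fin (N' + 1)) ℂ)
  (κ : ℤ), Inv κ (baseCone N N' c G κ)

/-- étale covers -/
def S_ETALE : Prop := ∀ (κ : ℤ) (σ : Type) [Fintype σ] (C : Cone σ), Inv κ C →
  ∀ R : AddSubgroup (σ → ℤ), C.R ≤ R → (∀ ρ ∈ R, ∃ k : ℕ, 0 < k ∧ k • ρ ∈ C.R) →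
    Inv κ { C with R := R }

/-- the group of the cover is mapped onto the group of the base -/
def S_LIFT : Prop := ∀ (σ : Type) [Fintype σ] (C : Cone σ) (r n : ℕ) (D : Cover C r n)
  (t : σ → ℂˣ), C.InGroup t → ∃ s : Fin r → ℂˣ, D.cone.InGroup (Sum.elim t s)

/-- The degrees on the base as integers and the classes of the `z_i`. -/
def flat {σ : Type} [Fintype σ] {C : Cone σ} {r n : ℕ} (D : Cover C r n) (M : ℕ) :
    AddSubgroup (ℤ × (Fin r → ℤ)) where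
  carrier := {x | ∃ ρ ∈ D.R, (M : ℚ) * C.degree (fun i => ρ (Sum.inl i)) = x.1 ∧
    (fun i => ρ (Sum.inr i)) = x.2}
  zero_mem' := ⟨0, D.R.zero_mem, by simp [Cone.degree], rfl⟩
  add_mem' := by
    rintro a b ⟨ρ, hρ, h1, h2⟩ ⟨ρ', hρ', h1', h2'⟩
    refine ⟨ρ + ρ', D.R.add_mem hρ hρ', ?_, ?_⟩
    · rw [Prod.fst_add, Int.cast_add, ← h1, ← h1', ← mul_add, Cone.degree, Cone.degree,
        Cone.degree, ← Finset.sum_add_distrib]
      congr 1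
      refine Finset.sum_congr rfl fun i _ => ?_
      rw [Pi.add_apply]
      push_cast
      ring
    · rw [Prod.snd_add, ← h2, ← h2']
      rfl
  neg_mem' := by
    rintro a ⟨ρ, hρ, h1, h2⟩
    refine ⟨-ρ, D.R.neg_mem hρ, ?_, ?_⟩
    · rw [Prod.fst_neg, Int.cast_neg, ← h1, ← mul_neg, Cone.degree, Cone.degree,
        ← Finset.sum_neg_distrib]
      congr 1
      refine Finset.sum_congr rfl fun i _ => ?_
      rw [Pi.neg_apply]
      push_cast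
      ring
    · rw [Prod.snd_neg, ← h2]
      rfl

/-- the arithmetic of the classes -/
def S_DAT : Prop := ∀ (σ : Type) [Fintype σ] (C : Cone σ) (r n : ℕ) (D : Cover C r n) (M : ℕ),
  M ≠ 0 → (∀ ρ ∈ C.R, C.degree ρ = 0) → (∀ ρ ∈ C.R, C.omega ρ = 0) →
  (∀ i, ∃ q : ℤ, (M : ℚ) * C.deg i = q) →
  (∀ ρ ∈ D.R, D.cone.degree ρ = 0) ∧ (∀ ρ ∈ D.R, D.cone.omega ρ = 0) ∧
  ∃ δ : Fin r → ℕ, (∀ i, (δ i : ℚ) = M * C.degree (D.d i)) ∧ FU.Dat (flat D M) δ D.e n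

end Pool.Agent.K3h47.TX
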